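import Pool.Agent.H506Z.TP10

/-!
A tensor product action with the Rokhlin property on a stably finite algebra whose first factor
does not have the Rokhlin property.

`A = C*_r(F(S) ⋊ ℤ)`, where `ℤ` permutes the letters `S` in cycles of lengths `1, 1, 3, 9, 27, …`,
with the order two automorphism dual to `F(S) ⋊ ℤ → ℤ → ℤ/2`; `B` is the CAR algebra with a dual
action of `ℤ/2`.
-/

set_option autoImplicit false

namespace Pool.Agent.Results.MP_7f0ddb_an.ACounter

open Pool.Agent.H506Z.TPS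

theorem result :
    ∃ (A B C : Type) (_ : CStarAlgebra A) (_ : CStarAlgebra B) (_ : CStarAlgebra C) (t : A → B → C)
      (α : ℤˣ → A → A) (β : ℤˣ → B → B) (γ : ℤˣ × ℤˣ → C → C),
      IsSimple A ∧ IsSimple B ∧ IsMinTensor t ∧ IsStablyFinite C ∧
      IsAction α ∧ IsAction β ∧ IsAction γ ∧ (∀ g h a b, γ (g, h) (t a b) = t (α g a) (β h b)) ∧
      Rokhlin γ ∧ ¬ Rokhlin α := by
  obtain ⟨A, B, C, i1, i2, i3, t, α, β, γ, h1, h2, h3, h4, h5, h6, h7, h8, r1, r2, r3, r4⟩ := main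
  exact ⟨A, B, C, i1, i2, i3, t, α, β, γ, h1, h2, h3, h4, h5, h6, h7, h8, r1, r3⟩

end Pool.Agent.Results.MP_7f0ddb_an.ACounter
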